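import Pool.Agent.Y693.GL.Asm
import Pool.Agent.TH839.UH.Fin2

/-!
# Products of the L-functions of several newforms over abelian number fields
-/

set_option autoImplicit false

namespace Pool.Agent.R409.MC

open UpperHalfPlane hiding I
open MatrixGroups CongruenceSubgroup Filter Topology Complex
open Pool.Agent.Y671.GL
open Pool.Agent.Y693.GL
open Pool.Agent.W169.HF (IsForm coef heat)
open Pool.Agent.W355.UN (facE prodE condA Pk coprime_cond pk_ab pk_list kap kap_ne cnE UL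
  Bst_nonneg)
open Pool.Agent.TH839.UH (Flow lD flow_of BB UL.monoB cmp_ab main_all)
open scoped ComplexConjugate

/-- a family of newforms `f_j` of level `N_j` and abelian fields, given by groups of characters
modulo `q_j` prime to `N_j` -/
structure Fam (ι : Type) [Fintype ι] where
  N : ι → ℕ
  hN : ∀ j, N j ≠ 0
  f : (j : ι) → CuspForm (Gamma0 (N j) : Subgroup (GL (Fin 2) ℝ)) 2
  w : ι → ℝ
  form : ∀ j, IsForm (N j) (f j) (w j)
  q : ι → ℕ
  hq : ∀ j, q j ≠ 0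
  G : (j : ι) → Subgroup (DirichletCharacter ℂ (q j))
  hG : ∀ j, Fintype (G j)
  cop : ∀ j, Nat.Coprime (q j) (N j)

variable {ι : Type} [Fintype ι]

instance (F : Fam ι) (j : ι) : NeZero (F.N j) := ⟨F.hN j⟩
instance (F : Fam ι) (j : ι) : NeZero (F.q j) := ⟨F.hq j⟩
instance (F : Fam ι) (j : ι) : Fintype (F.G j) := F.hG j

/-- the completed L-function for large real part -/
noncomputable def PE (F : Fam ι) (s : ℂ) : ℂ := ∏ j, prodE (F.G j) (F.f j) s

/-- the degree and the conductor -/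
noncomputable def dF (F : Fam ι) : ℕ := ∑ j, Fintype.card (F.G j)

noncomputable def AF (F : Fam ι) : ℝ := ∏ j, condA (F.G j) (F.N j)

lemma condA_ge (F : Fam ι) (j : ι) : 1 ≤ condA (F.G j) (F.N j) := by
  unfold Pool.Agent.W355.UN.condA
  have hN1 : (1 : ℝ) ≤ F.N j := by exact_mod_cast Nat.one_le_iff_ne_zero.2 (F.hN j)
  have e1 : (1 : ℝ) = ∏ _χ : F.G j, (1 : ℝ) := by simp
  rw [e1]
  refine Finset.prod_le_prod (fun _ _ => zero_le_one) fun χ _ => ?_
  have hc : (1 : ℝ) ≤ ((χ : DirichletCharacter ℂ (F.q j)).conductor : ℝ) := by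
    exact_mod_cast Nat.one_le_iff_ne_zero.2 (DirichletCharacter.conductor_ne_zero _)
  exact one_le_mul_of_one_le_of_one_le hN1 (one_le_pow₀ hc)

lemma AF_ge (F : Fam ι) : 1 ≤ AF F := by
  unfold AF
  have e1 : (1 : ℝ) = ∏ _j : ι, (1 : ℝ) := by simp
  rw [e1]
  exact Finset.prod_le_prod (fun _ _ => zero_le_one) fun j _ => condA_ge F j

lemma lD_sum (F : Fam ι) (y : ℝ) :
    ∑ j, lD (Fintype.card (F.G j)) (condA (F.G j) (F.N j)) y = lD (dF F) (AF F) y := by
  unfold Pool.Agent.TH839.UH.lD dF AF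
  have hy : (0 : ℝ) < 1 + |y| := by positivity
  rw [Finset.sum_add_distrib]
  congr 1
  · push_cast
    rfl
  · rw [← Real.log_prod]
    · congr 1
      rw [Finset.prod_mul_distrib, Finset.mul_sum, Finset.prod_pow_eq_pow_sum]
    · intro j _
      have := condA_ge F j
      positivity

section
variable [Nonempty ι] (F : Fam ι)

theorem gy_sum {ι : Type} [DecidableEq ι] (s : Finset ι) (hs : s.Nonempty) (κ : ι → ℝ)
    (H X Z : ι → ℂ → ℂ) (h : ∀ i ∈ s, GY (κ i) (H i) (X i) (Z i)) :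
    GY (∑ i ∈ s, κ i) (fun w => ∏ i ∈ s, H i w) (fun w => ∏ i ∈ s, X i w)
      (fun w => ∏ i ∈ s, Z i w) := by
  induction hs using Finset.Nonempty.cons_induction with
  | singleton a =>
    simp only [Finset.sum_singleton, Finset.prod_singleton]
    exact h a (Finset.mem_singleton_self a)
  | cons a s ha hs ih =>
    have h1 := h a (Finset.mem_cons_self a s)
    have h2 := ih fun i hi => h i (Finset.mem_cons_of_mem hi)
    have h3 := gy_mul h1 h2
    simp only [Finset.sum_cons, Finset.prod_cons]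
    exact h3

theorem gy_fam : ∃ (H X Z : ℂ → ℂ), GY (dF F : ℝ) H X Z ∧ (∀ s : ℂ, X s = 0 → |s.re| ≤ 1 / 2) ∧
      (∃ z, X z ≠ 0) ∧ ∃ v : ℂ, v ≠ 0 ∧ ∃ σ : ℝ, ∀ s : ℂ, σ ≤ s.re → X (s - 1) = v * PE F s := by
  classical
  have hone := fun j => gy_ab (F.G j) (F.form j) (F.cop j)
  choose H X Z h1 h2 h3 v h4 σ h5 using hone
  refine ⟨fun w => ∏ j, H j w, fun w => ∏ j, X j w, fun w => ∏ j, Z j w, ?_, ?_, ?_,
    ∏ j, v j, Finset.prod_ne_zero_iff.2 fun j _ => h4 j, ∑ j, |σ j|, ?_⟩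
  · have h6 := gy_sum (Finset.univ : Finset ι) Finset.univ_nonempty
      (fun j => (Fintype.card (F.G j) : ℝ)) H X Z fun j _ => h1 j
    unfold dF
    push_cast
    exact h6
  · intro s hs
    obtain ⟨j, -, hj⟩ := Finset.prod_eq_zero_iff.1 hs
    exact h2 j s hj
  · refine ⟨1, Finset.prod_ne_zero_iff.2 fun j _ => ?_⟩
    intro h0
    have := h2 j 1 h0
    norm_num at this
  · intro s hs
    unfold PE
    rw [← Finset.prod_mul_distrib]
    refine Finset.prod_congr rfl fun j _ => h5 j s ?_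
    refine le_trans ?_ hs
    refine (le_abs_self _).trans ?_
    exact Finset.single_le_sum (f := fun j : ι => |σ j|) (fun _ _ => abs_nonneg _)
      (Finset.mem_univ j)

/-- the completed L-function of the family in the normalisation of `GY` -/
theorem gy_famL {Λ : ℂ → ℂ} (hd : Differentiable ℂ Λ)
    (hΛ : ∃ σ : ℝ, ∀ s : ℂ, σ ≤ s.re → Λ s = PE F s) :
    ∃ (H X Z : ℂ → ℂ), GY (dF F : ℝ) H X Z ∧ (∀ s : ℂ, X s = 0 → |s.re| ≤ 1 / 2) ∧
      (∃ z, X z ≠ 0) ∧ ∃ v : ℂ, v ≠ 0 ∧ ∀ z : ℂ, X z = v * Λ (1 + z) := by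
  obtain ⟨H, X, Z, h1, h2, h3, v, h4, σ, h5⟩ := gy_fam F
  refine ⟨H, X, Z, h1, h2, h3, v, h4, ?_⟩
  obtain ⟨σ', hσ'⟩ := hΛ
  have hXd := h1.cg.cf.diff
  have hd1 : Differentiable ℂ (fun s : ℂ => X (s - 1)) := hXd.comp (by fun_prop)
  have hd2 : Differentiable ℂ (fun s : ℂ => v * Λ s) := hd.const_mul v
  have he := Pk.uniq (G := fun s => v * PE F s) hd2 hd1 ⟨σ', fun s hs => by
    show v * Λ s = v * PE F s
    rw [hσ' s hs]⟩ ⟨σ, h5⟩
  intro z
  have h6 := congrFun he (1 + z)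
  simpa using h6

/-- the package of the product -/
theorem pk_fam : ∃ X : ℂ → ℂ, Pk (2 * dF F) (AF F)
      (fun y => ∏ j, ∏ χ : F.G j, cnE (F.N j) (χ : DirichletCharacter ℂ (F.q j)).conductor y)
      (fun s => (∏ j, kap (F.G j) (F.N j)) * PE F (s + 1 / 2)) X := by
  classical
  have hone := fun j => pk_ab (F.G j) (F.form j) (F.cop j)
  have hl : (Finset.univ : Finset ι).toList ≠ [] := by
    intro h
    obtain ⟨j⟩ := (inferInstance : Nonempty ι)
    have h1 : j ∈ (Finset.univ : Finset ι).toList := Finset.mem_toList.2 (Finset.mem_univ _)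
    rw [h] at h1
    exact List.not_mem_nil h1
  obtain ⟨X, h⟩ := pk_list _ _ _ _ hone (Finset.univ : Finset ι).toList hl
  refine ⟨X, ?_⟩
  simp only [Finset.prod_map_toList, Finset.sum_map_toList] at h
  rw [← Finset.mul_sum] at h
  refine h.congr (fun y => rfl) ⟨0, fun s _ => ?_⟩
  unfold PE
  rw [Finset.prod_mul_distrib]

/-- the completed L-function of the family, with its functional equation and the flow -/
theorem flow_fam : ∃ C : ℝ, 0 < C ∧ ∀ (ι : Type) [Fintype ι] [Nonempty ι] (F : Fam ι),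
    ∃ Λ : ℂ → ℂ, Differentiable ℂ Λ ∧ (∃ σ : ℝ, ∀ s : ℂ, σ ≤ s.re → Λ s = PE F s) ∧
    (∃ W : ℂ, ‖W‖ = 1 ∧ ∀ s : ℂ, Λ (2 - s) = W * conj (Λ (conj s))) ∧
    Flow C (dF F) (AF F) Λ := by
  obtain ⟨C0, hC0, HH⟩ := main_all (B := BB) (by
    have h1 := Pool.Agent.TH839.UH.NF.B0_nonneg
    have h2 := Bst_nonneg 1
    unfold Pool.Agent.TH839.UH.BB
    linarith)
  refine ⟨4 * C0 + 4 * C0 ^ 2, by positivity, ?_⟩
  intro ι _ _ F
  obtain ⟨X, hpk⟩ := pk_fam F
  have hdiff := hpk.diff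
  obtain ⟨w', hw', hfe⟩ := hpk.fe
  have hA1 := hpk.one_le_N
  obtain ⟨μ, L, u, ec, σ, hσ⟩ := hpk
  set κ : ℂ := ∏ j, kap (F.G j) (F.N j) with hκdef
  have hκ : κ ≠ 0 := Finset.prod_ne_zero_iff.2 fun j _ =>
    kap_ne (F.G j) (Nat.pos_of_ne_zero (F.hN j))
  have hre : ∀ s : ℂ, (s - 1 / 2).re = s.re - 1 / 2 := fun s => by simp
  have hu : UL (2 * dF F) BB (AF F) 0 μ X L := UL.monoB u fun ρ => by
    have := Pool.Agent.TH839.UH.NF.B0_nonneg
    unfold Pool.Agent.TH839.UH.BB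
    linarith
  refine ⟨fun s => κ⁻¹ * X (s - 1 / 2), ?_, ⟨σ + 1 / 2, fun s hs => ?_⟩,
    ⟨κ⁻¹ * w' * conj κ, ?_, fun s => ?_⟩, ?_⟩
  · exact (hdiff.comp (by fun_prop : Differentiable ℂ fun s : ℂ => s - 1 / 2)).const_mul _
  · show κ⁻¹ * X (s - 1 / 2) = PE F s
    rw [hσ (s - 1 / 2) (by rw [hre]; linarith)]
    show κ⁻¹ * (κ * PE F (s - 1 / 2 + 1 / 2)) = PE F s
    rw [sub_add_cancel, inv_mul_cancel_left₀ hκ]
  · rw [norm_mul, norm_mul, norm_inv, RCLike.norm_conj, hw', mul_one,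
      inv_mul_cancel₀ (norm_ne_zero_iff.2 hκ)]
  · show κ⁻¹ * X (2 - s - 1 / 2) = κ⁻¹ * w' * conj κ * conj (κ⁻¹ * X (conj s - 1 / 2))
    have h1 : (2 - s - 1 / 2 : ℂ) = 1 - (s - 1 / 2) := by ring
    have h2 : conj (s - 1 / 2) = conj s - 1 / 2 := by
      rw [map_sub, map_div₀, map_one, map_ofNat]
    have h3 : conj κ ≠ 0 := (map_ne_zero _).2 hκ
    rw [h1, hfe, h2, map_mul, map_inv₀]
    field_simp
  · refine flow_of hC0 (HH _ _ _ _ _ _ hu zero_le_one) hu zero_le_one hκ (fun z => ?_) hA1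
      fun y => ?_
    · show X z = κ * (κ⁻¹ * X (z + 1 / 2 - 1 / 2))
      rw [add_sub_cancel_right, mul_inv_cancel_left₀ hκ]
    · rw [ec y]
      have hc := fun j => cmp_ab (F.G j) (Nat.pos_of_ne_zero (F.hN j)) (condA_ge F j) y
      have hpos : ∀ j, ∏ χ : F.G j,
          cnE (F.N j) (χ : DirichletCharacter ℂ (F.q j)).conductor y ≠ 0 := by
        intro j
        refine (Finset.prod_pos fun χ _ => ?_).ne'
        refine lt_of_lt_of_le ?_ (Pool.Agent.W355.UN.cnE_ge _ _ y)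
        have h1 : (0 : ℝ) < F.N j := by exact_mod_cast Nat.pos_of_ne_zero (F.hN j)
        have h2 : (0 : ℝ) < ((χ : DirichletCharacter ℂ (F.q j)).conductor : ℝ) := by
          exact_mod_cast Nat.pos_of_ne_zero (DirichletCharacter.conductor_ne_zero _)
        positivity
      have hlog : Real.log (∏ j, ∏ χ : F.G j,
          cnE (F.N j) (χ : DirichletCharacter ℂ (F.q j)).conductor y) =
          ∑ j, Real.log (∏ χ : F.G j,
            cnE (F.N j) (χ : DirichletCharacter ℂ (F.q j)).conductor y) :=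
        Real.log_prod fun j _ => hpos j
      have hd : ((2 * dF F : ℕ) : ℝ) = ∑ j, ((2 * Fintype.card (F.G j) : ℕ) : ℝ) := by
        unfold dF
        rw [Finset.mul_sum]
        push_cast
        rfl
      rw [← lD_sum F y, hlog, hd, ← Finset.sum_add_distrib, Finset.mul_sum]
      refine ⟨?_, Finset.sum_le_sum fun j _ => (hc j).2.1, Finset.sum_le_sum fun j _ => (hc j).2.2⟩
      obtain ⟨j0⟩ := (inferInstance : Nonempty ι)
      refine (hc j0).1.trans ?_
      exact Finset.single_le_sum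
        (f := fun j => lD (Fintype.card (F.G j)) (condA (F.G j) (F.N j)) y)
        (fun j _ => zero_le_one.trans (hc j).1) (Finset.mem_univ j0)

/-- the derivatives -/
theorem der_fam {C : ℝ} (hC : 0 < C) {Λ : ℂ → ℂ} (hd : Differentiable ℂ Λ)
    (hΛ : ∃ σ : ℝ, ∀ s : ℂ, σ ≤ s.re → Λ s = PE F s) (hF : Flow C (dF F) (AF F) Λ) :
    DerD Λ := by
  obtain ⟨H, X, Z, h1, h2, h3, v, hv, h4⟩ := gy_famL F hd hΛ
  have hcard : 1 ≤ dF F := by
    obtain ⟨j0⟩ := (inferInstance : Nonempty ι)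
    have h5 : 1 ≤ Fintype.card (F.G j0) := Fintype.card_pos
    exact h5.trans (Finset.single_le_sum (f := fun j => Fintype.card (F.G j))
      (fun j _ => Nat.zero_le _) (Finset.mem_univ j0))
  obtain ⟨K, hK, hslow⟩ := h1.cg.slow
  have hXs : Pool.Agent.W169.HF.Slow X := slow_of h1.cg.cf.diff hK hslow
  obtain ⟨h5, -⟩ := Pool.Agent.Y275.GL.hht X hXs h1.cg.cf.symm h3 h2
  have h0 : heat 0 Λ = Λ := by
    funext s
    have h6 := heat_tr h4 0 (s - 1)
    rw [h5, h4] at h6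
    have e1 : (1 : ℂ) + (s - 1) = s := by ring
    rw [e1] at h6
    exact (mul_left_cancel₀ hv h6).symm
  refine der_of ?_ h1 h2 h3 hv h4 hd (low_of hC hcard (AF_ge F) hv h4 h0 hF)
  have : (1 : ℝ) ≤ dF F := by exact_mod_cast hcard
  linarith

end

end Pool.Agent.R409.MC
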